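import Pool.Agent.U136.DX.Stm5

/-! Project DX, package CVX: a quadratic form inequality in three-space. -/

set_option autoImplicit false

namespace Pool.Agent.U801.DX

/-- the inequality in terms of the Gram data -/
lemma gram_ineq (n E r s α w V : ℝ) (hn : 1 ≤ n) (hE : 0 ≤ E) (hr : 0 ≤ r) (hV : 0 ≤ V)
    (hb : 0 ≤ E * r - s ^ 2)
    (hG : E * w ^ 2 - 2 * s * α * w + r * α ^ 2 ≤ (E * r - s ^ 2) * V)
    (hE0 : E = 0 → s = 0 ∧ α = 0) :
    0 ≤ α ^ 2 * r ^ 2 + n * r * (E * w ^ 2 + 4 * s * α * w + s ^ 2 * V) +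
      2 * n * (n - 1) * s ^ 2 * w ^ 2 := by
  rcases hb.lt_or_eq with hb | hb
  · -- `b² > 0`
    set b := E * r - s ^ 2 with hbdef
    have hEr : E * r = s ^ 2 + b := by rw [hbdef]; ring
    suffices h : 0 ≤ b * (α ^ 2 * r ^ 2 + n * r * (E * w ^ 2 + 4 * s * α * w + s ^ 2 * V) +
        2 * n * (n - 1) * s ^ 2 * w ^ 2) from nonneg_of_mul_nonneg_right h hb
    have h1 : n * r * s ^ 2 * (E * w ^ 2 - 2 * s * α * w + r * α ^ 2) ≤ n * r * s ^ 2 * (b * V) :=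
      mul_le_mul_of_nonneg_left hG (by positivity)
    set x := r * α with hx
    -- quadratic form in `(x, w)`
    have h2 : 0 ≤ x ^ 2 * (b + n * s ^ 2) + 2 * n * s * (2 * b - s ^ 2) * x * w +
        n * w ^ 2 * ((s ^ 2 + b) ^ 2 + 2 * (n - 1) * s ^ 2 * b) := by
      have hA : 0 < b + n * s ^ 2 := by positivity
      have hdet : 0 ≤ (b + n * s ^ 2) * (n * ((s ^ 2 + b) ^ 2 + 2 * (n - 1) * s ^ 2 * b)) -
          (n * s * (2 * b - s ^ 2)) ^ 2 := by
        have : (b + n * s ^ 2) * (n * ((s ^ 2 + b) ^ 2 + 2 * (n - 1) * s ^ 2 * b)) -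
          (n * s * (2 * b - s ^ 2)) ^ 2 =
            n * b * (b ^ 2 - n * s ^ 2 * b + (1 + 4 * n + 2 * n ^ 2) * s ^ 4) := by ring
        rw [this]
        have h3 : 0 ≤ b ^ 2 - n * s ^ 2 * b + (1 + 4 * n + 2 * n ^ 2) * s ^ 4 := by
          nlinarith [sq_nonneg (b - n * s ^ 2 / 2), sq_nonneg (s ^ 2), sq_nonneg (n * s ^ 2),
            mul_nonneg (by linarith : (0:ℝ) ≤ n) (sq_nonneg (s ^ 2))]
        positivity
      have h4 : 0 ≤ (b + n * s ^ 2) * (x ^ 2 * (b + n * s ^ 2) + 2 * n * s * (2 * b - s ^ 2) * x * w +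
        n * w ^ 2 * ((s ^ 2 + b) ^ 2 + 2 * (n - 1) * s ^ 2 * b)) := by
        have : (b + n * s ^ 2) * (x ^ 2 * (b + n * s ^ 2) + 2 * n * s * (2 * b - s ^ 2) * x * w +
          n * w ^ 2 * ((s ^ 2 + b) ^ 2 + 2 * (n - 1) * s ^ 2 * b)) =
          (x * (b + n * s ^ 2) + n * s * (2 * b - s ^ 2) * w) ^ 2 + w ^ 2 *
          ((b + n * s ^ 2) * (n * ((s ^ 2 + b) ^ 2 + 2 * (n - 1) * s ^ 2 * b)) -
          (n * s * (2 * b - s ^ 2)) ^ 2) := by ring
        rw [this]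
        exact add_nonneg (sq_nonneg _) (mul_nonneg (sq_nonneg _) hdet)
      exact nonneg_of_mul_nonneg_right h4 hA
    have h5 : x ^ 2 * (b + n * s ^ 2) + 2 * n * s * (2 * b - s ^ 2) * x * w +
        n * w ^ 2 * ((s ^ 2 + b) ^ 2 + 2 * (n - 1) * s ^ 2 * b) =
        b * (α ^ 2 * r ^ 2 + n * r * (E * w ^ 2 + 4 * s * α * w) +
        2 * n * (n - 1) * s ^ 2 * w ^ 2) + n * r * s ^ 2 * (E * w ^ 2 - 2 * s * α * w + r * α ^ 2) := by
      rw [← hEr, hx]
      have hb' : b = E * r - s ^ 2 := hbdef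
      rw [hb']
      ring
    rw [h5] at h2
    nlinarith [h1, h2]
  · -- `b = 0`
    have hs : s ^ 2 = E * r := by linarith
    rw [← hb, zero_mul] at hG
    rcases hE.lt_or_eq with hE | hE
    · have h1 : (E * w - s * α) ^ 2 ≤ 0 := by
        have : (E * w - s * α) ^ 2 = E * (E * w ^ 2 - 2 * s * α * w + r * α ^ 2) +
          (s ^ 2 - E * r) * α ^ 2 := by ring
        rw [this, hs, sub_self, zero_mul, add_zero]
        exact mul_nonpos_of_nonneg_of_nonpos hE.le hG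
      have h2 : E * w = s * α := by
        have := pow_eq_zero_iff (two_ne_zero) |>.1 (le_antisymm h1 (sq_nonneg _))
        linarith
      have h3 : s * α * w = E * w ^ 2 := by rw [← h2]; ring
      have h4 : 0 ≤ n * r * (E * w ^ 2 + 4 * s * α * w + s ^ 2 * V) := by
        have : 4 * s * α * w = 4 * (E * w ^ 2) := by rw [← h3]; ring
        rw [this]
        positivity
      have h5 : 0 ≤ 2 * n * (n - 1) * s ^ 2 * w ^ 2 := by
        have : 0 ≤ n - 1 := by linarith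
        positivity
      positivity
    · obtain ⟨h1, h2⟩ := hE0 hE.symm
      rw [h1, h2, ← hE]
      simp

theorem cvx : ∀ n : ℕ, 1 ≤ n → ∀ e z v : Fin 3 → ℝ,
  0 ≤ (∑ i, e i * v i) ^ 2 * (∑ i, z i ^ 2) ^ 2 +
    n * (∑ i, z i ^ 2) * ((∑ i, e i ^ 2) * (∑ i, z i * v i) ^ 2 +
      4 * (∑ i, e i * z i) * (∑ i, e i * v i) * (∑ i, z i * v i) +
      (∑ i, e i * z i) ^ 2 * ∑ i, v i ^ 2) +
    2 * n * (n - 1) * (∑ i, e i * z i) ^ 2 * (∑ i, z i * v i) ^ 2 := by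
  intro n hn e z v
  have hn' : (1 : ℝ) ≤ n := by exact_mod_cast hn
  refine gram_ineq n _ _ _ _ _ _ hn' (Finset.sum_nonneg fun i _ => sq_nonneg _)
    (Finset.sum_nonneg fun i _ => sq_nonneg _) (Finset.sum_nonneg fun i _ => sq_nonneg _) ?_ ?_ ?_
  · have : (∑ i, e i ^ 2) * (∑ i, z i ^ 2) - (∑ i, e i * z i) ^ 2 =
        (e 0 * z 1 - e 1 * z 0) ^ 2 + (e 0 * z 2 - e 2 * z 0) ^ 2 + (e 1 * z 2 - e 2 * z 1) ^ 2 := by
      simp only [Fin.sum_univ_three]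
      ring
    rw [this]
    positivity
  · have : ((∑ i, e i ^ 2) * (∑ i, z i ^ 2) - (∑ i, e i * z i) ^ 2) * (∑ i, v i ^ 2) -
        ((∑ i, e i ^ 2) * (∑ i, z i * v i) ^ 2 -
        2 * (∑ i, e i * z i) * (∑ i, e i * v i) * (∑ i, z i * v i) +
        (∑ i, z i ^ 2) * (∑ i, e i * v i) ^ 2) =
        (e 0 * (z 1 * v 2 - z 2 * v 1) - e 1 * (z 0 * v 2 - z 2 * v 0) +
          e 2 * (z 0 * v 1 - z 1 * v 0)) ^ 2 := by
      simp only [Fin.sum_univ_three]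
      ring
    have h2 := sq_nonneg (e 0 * (z 1 * v 2 - z 2 * v 1) - e 1 * (z 0 * v 2 - z 2 * v 0) +
          e 2 * (z 0 * v 1 - z 1 * v 0))
    rw [← this] at h2
    linarith
  · intro h
    have h1 : ∀ i, e i = 0 := by
      intro i
      have := (Finset.sum_eq_zero_iff_of_nonneg (fun i _ => sq_nonneg (e i))).1 h i
        (Finset.mem_univ i)
      exact pow_eq_zero_iff (two_ne_zero) |>.1 this
    simp [h1]

theorem t_CVX : Pool.Agent.U136.DX.S_CVX := cvx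

end Pool.Agent.U801.DX
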